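import Mathlib

/-!
# MP_293cc0_an: embeddings of finite metric spaces into `ℓ_∞^d`, the basic language

* `Emb X d`: `X` embeds isometrically into `ℓ_∞^d` (`Fin d → ℝ` with the sup metric of Mathlib);
* `dmin n`: the least `d ≥ 1` such that every metric space with `n` points embeds into `ℓ_∞^d`;
* `PF X`: a partial potential: a finite domain `D`, a side for every point, a potential `p` with
  `p x + p y ≤ dist x y` for points on different sides, and every point of the domain is tight;
* `Cov S k`: the pairs of `S` are covered by `k` partial potentials;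
* `PF.exists_lipschitz`: a partial potential gives a `1`-Lipschitz function which is exact on all tight pairs;
* `Cov.emb`: if `Cov S k`, then `X` embeds into `ℓ_∞^(k + (card X - card S))`.
-/

set_option autoImplicit false

namespace Pool.Agent.Lib.MP_293cc0_an

open Finset

/-- `X` embeds isometrically into `ℓ_∞^d`. -/
def Emb (X : Type) [MetricSpace X] (d : ℕ) : Prop :=
  ∃ f : X → (Fin d → ℝ), ∀ x y, dist (f x) (f y) = dist x y

/-- The least `d ≥ 1` such that every metric space with exactly `n` points embeds isometrically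
into `ℓ_∞^d`. -/
noncomputable def dmin (n : ℕ) : ℕ :=
  sInf {d : ℕ | 1 ≤ d ∧ ∀ (X : Type) [MetricSpace X] [Fintype X], Fintype.card X = n → Emb X d}

/-- A partial potential. -/
structure PF (X : Type) [MetricSpace X] where
  D : Finset X
  s : X → Bool
  p : X → ℝ
  feas : ∀ x ∈ D, ∀ y ∈ D, s x ≠ s y → p x + p y ≤ dist x y
  tight : ∀ x ∈ D, ∃ y ∈ D, s x ≠ s y ∧ p x + p y = dist x y

/-- The pair `x, y` is tight for the partial potential `f`. -/
def PF.cov {X : Type} [MetricSpace X] (f : PF X) (x y : X) : Prop :=
  x ∈ f.D ∧ y ∈ f.D ∧ f.s x ≠ f.s y ∧ f.p x + f.p y = dist x y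

/-- The pairs of `S` are covered by `k` partial potentials. -/
def Cov {X : Type} [MetricSpace X] (S : Finset X) (k : ℕ) : Prop :=
  ∃ f : Fin k → PF X, ∀ x ∈ S, ∀ y ∈ S, x ≠ y → ∃ i, (f i).cov x y

variable {X : Type} [MetricSpace X]

theorem PF.cov_symm {f : PF X} {x y : X} (h : f.cov x y) : f.cov y x :=
  ⟨h.2.1, h.1, fun e => h.2.2.1 e.symm, by rw [add_comm, dist_comm]; exact h.2.2.2⟩

/-- The value of a partial potential as a function: `p` on one side, `- p` on the other. -/
def PF.val (f : PF X) (x : X) : ℝ := if f.s x then f.p x else - f.p x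

/-- A partial potential is `1`-Lipschitz on its domain. -/
theorem PF.lip (f : PF X) {x y : X} (hx : x ∈ f.D) (hy : y ∈ f.D) :
    f.val x - f.val y ≤ dist x y := by
  obtain ⟨x', hx', hsx, hpx⟩ := f.tight x hx
  obtain ⟨y', hy', hsy, hpy⟩ := f.tight y hy
  unfold PF.val
  by_cases h : f.s x = f.s y
  · have h1 : f.p y + f.p x' ≤ dist y x' := f.feas y hy x' hx' (by rw [← h]; exact hsx)
    have h2 : f.p x + f.p y' ≤ dist x y' := f.feas x hx y' hy' (by rw [h]; exact hsy)
    have t1 : dist x x' ≤ dist x y + dist y x' := dist_triangle _ _ _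
    have t2 : dist y y' ≤ dist x y + dist x y' := by
      have := dist_triangle y x y'
      rw [dist_comm y x] at this
      exact this
    have t3 : dist x y' ≤ dist x y + dist y y' := dist_triangle _ _ _
    have t4 : dist y x' ≤ dist x y + dist x x' := by
      have := dist_triangle y x x'
      rw [dist_comm y x] at this
      exact this
    rw [← h]
    split_ifs <;> linarith
  · have h1 : f.p x + f.p y ≤ dist x y := f.feas x hx y hy h
    have hxy' : f.s x = f.s y' := by
      cases hxx : f.s x <;> cases hyy : f.s y <;> cases hyy' : f.s y' <;> simp_all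
    have hyx' : f.s y = f.s x' := by
      cases hxx : f.s x <;> cases hyy : f.s y <;> cases hxx' : f.s x' <;> simp_all
    have h2 : f.p y + f.p y' = dist y y' := hpy
    by_cases hs : f.s x = true
    · have hs' : f.s y = false := by
        cases hyy : f.s y
        · rfl
        · exact absurd (hs.trans hyy.symm) h
      rw [if_pos hs, hs']
      simp only [Bool.false_eq_true, if_false]
      linarith
    · have hs0 : f.s x = false := by simpa using hs
      have hs' : f.s y = true := by
        cases hyy : f.s y
        · exact absurd (hs0.trans hyy.symm) h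
        · rfl
      rw [hs0, hs']
      simp only [Bool.false_eq_true, if_false, if_true]
      -- `- p x - p y ≤ dist x y`
      -- if `x' = y'` is impossible by the sides, so use the triangle inequality twice
      have h3 : 0 ≤ f.p x + f.p y + dist x y := by
        have h5 : f.p x' + f.p y' ≤ dist x' y' := by
          apply f.feas x' hx' y' hy'
          rw [← hyx', ← hxy', hs', hs0]
          simp
        have t1 : dist x' y' ≤ dist x' x + dist x y + dist y y' := by
          have a := dist_triangle x' x y'
          have b := dist_triangle x y y'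
          linarith
        have t2 : dist x x' = dist x' x := dist_comm _ _
        linarith
      linarith

theorem PF.exists_lipschitz (f : PF X) :
    ∃ F : X → ℝ, (∀ x y, |F x - F y| ≤ dist x y) ∧ ∀ x y, f.cov x y → |F x - F y| = dist x y := by
  have hL : LipschitzOnWith 1 f.val (f.D : Set X) := by
    apply LipschitzOnWith.of_le_add
    intro x hx y hy
    have := f.lip (Finset.mem_coe.mp hx) (Finset.mem_coe.mp hy)
    linarith
  obtain ⟨F, hF, hEq⟩ := hL.extend_real
  have hlip : ∀ x y, |F x - F y| ≤ dist x y := by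
    intro x y
    have := hF.dist_le_mul x y
    rw [Real.dist_eq] at this
    simpa using this
  refine ⟨F, hlip, ?_⟩
  intro x y hxy
  obtain ⟨hx, hy, hs, hp⟩ := hxy
  rw [← hEq (Finset.mem_coe.mpr hx), ← hEq (Finset.mem_coe.mpr hy)]
  unfold PF.val
  have hd : (0 : ℝ) ≤ dist x y := dist_nonneg
  cases h1 : f.s x <;> cases h2 : f.s y
  · rw [h1, h2] at hs; exact absurd rfl hs
  · simp only [Bool.false_eq_true, if_false, if_true]
    rw [← hp, show - f.p x - f.p y = -(f.p x + f.p y) by ring, abs_neg, abs_of_nonneg]
    rw [hp]; exact hd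
  · simp only [Bool.false_eq_true, if_false, if_true]
    rw [← hp, sub_neg_eq_add, abs_of_nonneg]
    rw [hp]; exact hd
  · rw [h1, h2] at hs; exact absurd rfl hs

/-- A family of `1`-Lipschitz functions such that every pair is exact for one of them gives an
embedding. -/
theorem emb_of_family {ι : Type} [Fintype ι] (F : ι → X → ℝ)
    (h1 : ∀ i x y, |F i x - F i y| ≤ dist x y)
    (h2 : ∀ x y, x ≠ y → ∃ i, |F i x - F i y| = dist x y) : Emb X (Fintype.card ι) := by
  classical
  let e := (Fintype.equivFin ι).symm
  refine ⟨fun x i => F (e i) x, fun x y => ?_⟩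
  apply le_antisymm
  · rw [dist_pi_le_iff dist_nonneg]
    intro i
    rw [Real.dist_eq]
    exact h1 (e i) x y
  · by_cases hxy : x = y
    · rw [hxy, dist_self, dist_self]
    · obtain ⟨i, hi⟩ := h2 x y hxy
      have h3 := dist_le_pi_dist (fun i => F (e i) x) (fun i => F (e i) y) (e.symm i)
      rw [Real.dist_eq] at h3
      simp only [Equiv.apply_symm_apply] at h3
      rw [← hi]
      exact h3

theorem Emb.mono {d d' : ℕ} (h : Emb X d) (hd : 1 ≤ d) (hdd : d ≤ d') : Emb X d' := by
  obtain ⟨f, hf⟩ := h
  have h1 : ∀ i x y, |f x i - f y i| ≤ dist x y := by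
    intro i x y
    rw [← hf x y, ← Real.dist_eq]
    exact dist_le_pi_dist (f x) (f y) i
  let g : Fin d' → Fin d := fun j => if hj : j.1 < d then ⟨j.1, hj⟩ else ⟨0, hd⟩
  have h2 := emb_of_family (X := X) (ι := Fin d') (fun j x => f x (g j))
    (fun j x y => h1 (g j) x y) (fun x y hxy => by
      have hne : (Finset.univ : Finset (Fin d)).Nonempty := ⟨⟨0, hd⟩, Finset.mem_univ _⟩
      obtain ⟨i, -, hi⟩ := Finset.exists_max_image Finset.univ
        (fun i => |f x i - f y i|) hne
      refine ⟨⟨i.1, lt_of_lt_of_le i.2 hdd⟩, ?_⟩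
      have hg : g ⟨i.1, lt_of_lt_of_le i.2 hdd⟩ = i := by
        simp only [g]
        rw [dif_pos i.2]
      simp only [hg]
      apply le_antisymm (h1 i x y)
      rw [← hf x y]
      rw [dist_pi_le_iff (abs_nonneg _)]
      intro j
      rw [Real.dist_eq]
      exact hi j (Finset.mem_univ j))
  rw [Fintype.card_fin] at h2
  exact h2

/-- **Glue.** If the pairs of `S` are covered by `k` partial potentials, then `X` embeds into
`ℓ_∞^(k + (card X - card S))`. -/
theorem Cov.emb [Fintype X] [DecidableEq X] {S : Finset X} {k : ℕ} (h : Cov S k) :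
    Emb X (k + (Fintype.card X - S.card)) := by
  obtain ⟨f, hf⟩ := h
  have hF : ∀ i, ∃ F : X → ℝ, (∀ x y, |F x - F y| ≤ dist x y) ∧
      ∀ x y, (f i).cov x y → |F x - F y| = dist x y := fun i => (f i).exists_lipschitz
  choose F hF1 hF2 using hF
  have h1 := emb_of_family (X := X) (ι := Fin k ⊕ {x : X // x ∉ S})
    (Sum.elim F (fun z x => dist z.1 x))
    (by
      rintro (i | z) x y
      · exact hF1 i x y
      · simp only [Sum.elim_inr]
        rw [dist_comm z.1 x, dist_comm z.1 y]
        exact abs_dist_sub_le x y z.1)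
    (by
      intro x y hxy
      by_cases hx : x ∈ S
      · by_cases hy : y ∈ S
        · obtain ⟨i, hi⟩ := hf x hx y hy hxy
          exact ⟨Sum.inl i, hF2 i x y hi⟩
        · refine ⟨Sum.inr ⟨y, hy⟩, ?_⟩
          simp only [Sum.elim_inr, dist_self, sub_zero]
          rw [dist_comm y x, abs_of_nonneg dist_nonneg]
      · refine ⟨Sum.inr ⟨x, hx⟩, ?_⟩
        simp only [Sum.elim_inr, dist_self, zero_sub, abs_neg]
        rw [abs_of_nonneg dist_nonneg])
  have h2 : Fintype.card (Fin k ⊕ {x : X // x ∉ S}) = k + (Fintype.card X - S.card) := by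
    rw [Fintype.card_sum, Fintype.card_fin]
    congr 1
    rw [Fintype.card_subtype_compl]
    congr 1
    exact Fintype.card_coe S
  rw [h2] at h1
  exact h1

/-- The bound for `dmin`. -/
theorem dmin_le {n k : ℕ} (hk : 1 ≤ k)
    (h : ∀ (X : Type) [MetricSpace X] [Fintype X], Fintype.card X = n → Emb X k) :
    dmin n ≤ k := Nat.sInf_le ⟨hk, fun X _ _ => h X⟩

end Pool.Agent.Lib.MP_293cc0_an
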