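import Pool.Agent.Lib.MP_293cc0_an.Basic

/-!
# MP_293cc0_an: combs

A comb is an end-homogeneous sequence `x 0, …, x (N-1)` of points with a symmetric weight `e`: for distinct
`a, b, c < t` the order of the two sums `ab|ct` and `ac|bt` is the order of `e a b` and `e a c`.
In the column of `c` the older points `a` are ordered by `e a c`.

* `IsU`: the sum of the two older and the two newer points of a quadruple is the largest one;
* `IsL`: it is the smallest one;
* `IPF`: partial potentials on the indices; `Sav X p`: savings `p`.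
-/

set_option autoImplicit false

namespace Pool.Agent.Lib.MP_293cc0_an

open Finset

/-- There is a finite set `S` whose pairs are covered by `card S - p` partial potentials. -/
def Sav (X : Type) [MetricSpace X] (p : ℕ) : Prop :=
  ∃ (S : Finset X) (K : ℕ), S.card = K + p ∧ Cov S K

/-- A comb. -/
structure Comb (X : Type) [MetricSpace X] (N : ℕ) where
  x : ℕ → X
  inj : ∀ i j, i < N → j < N → x i = x j → i = j
  e : ℕ → ℕ → ℝ
  symm : ∀ i j, e i j = e j i
  key : ∀ a b c t, a < t → b < t → c < t → t < N → a ≠ b → a ≠ c → b ≠ c → e a b ≤ e a c →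
    dist (x a) (x b) + dist (x c) (x t) ≤ dist (x a) (x c) + dist (x b) (x t)

variable {X : Type} [MetricSpace X] {N : ℕ}

/-- The U-regime. -/
def Comb.IsU (C : Comb X N) : Prop :=
  ∀ a b c, a < c → b < c → c + 1 < N → a ≠ b → C.e a c ≤ C.e a b

/-- The L-regime. -/
def Comb.IsL (C : Comb X N) : Prop :=
  ∀ a b c, a < c → b < c → c + 1 < N → a ≠ b → C.e a b ≤ C.e a c

/-- The subcomb with the indices `q 0 < q 1 < …`. -/
def Comb.sub (C : Comb X N) {M : ℕ} (q : ℕ → ℕ) (hq : ∀ i j, i < j → j < M → q i < q j)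
    (hN : ∀ i, i < M → q i < N) : Comb X M where
  x := fun i => C.x (q i)
  inj := by
    intro i j hi hj h
    have h1 := C.inj _ _ (hN i hi) (hN j hj) h
    rcases lt_trichotomy i j with h2 | h2 | h2
    · exact absurd h1 (ne_of_lt (hq i j h2 hj))
    · exact h2
    · exact absurd h1.symm (ne_of_lt (hq j i h2 hi))
  e := fun i j => C.e (q i) (q j)
  symm := fun i j => C.symm _ _
  key := by
    intro a b c t ha hb hc ht hab hac hbc h
    have hne : ∀ i j, i < t → j < t → i ≠ j → q i ≠ q j := by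
      intro i j hi hj hij h2
      rcases lt_trichotomy i j with h3 | h3 | h3
      · exact absurd h2 (ne_of_lt (hq i j h3 (lt_trans hj ht)))
      · exact hij h3
      · exact absurd h2.symm (ne_of_lt (hq j i h3 (lt_trans hi ht)))
    exact C.key _ _ _ _ (hq a t ha ht) (hq b t hb ht) (hq c t hc ht) (hN t ht)
      (hne a b ha hb hab) (hne a c ha hc hac) (hne b c hb hc hbc) h

/-- A partial potential on the indices of a comb. -/
structure IPF (C : Comb X N) where
  D : Finset ℕ
  s : ℕ → Bool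
  p : ℕ → ℝ
  sub : ∀ i ∈ D, i < N
  feas : ∀ i ∈ D, ∀ j ∈ D, s i = true → s j = false → p i + p j ≤ dist (C.x i) (C.x j)
  tight : ∀ i ∈ D, ∃ j ∈ D, s i ≠ s j ∧ p i + p j = dist (C.x i) (C.x j)

/-- The pair `i, j` is tight. -/
def IPF.cov {C : Comb X N} (f : IPF C) (i j : ℕ) : Prop :=
  i ∈ f.D ∧ j ∈ f.D ∧ f.s i ≠ f.s j ∧ f.p i + f.p j = dist (C.x i) (C.x j)

theorem IPF.exists_pf {C : Comb X N} (f : IPF C) :
    ∃ F : PF X, ∀ i j, f.cov i j → F.cov (C.x i) (C.x j) := by
  classical
  have hidx : ∀ y : X, ∃ i : ℕ, (∃ j ∈ f.D, C.x j = y) → i ∈ f.D ∧ C.x i = y := by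
    intro y
    by_cases h : ∃ j ∈ f.D, C.x j = y
    · obtain ⟨j, hj, hjy⟩ := h
      exact ⟨j, fun _ => ⟨hj, hjy⟩⟩
    · exact ⟨0, fun h' => absurd h' h⟩
  choose idx hidx using hidx
  have hid : ∀ i ∈ f.D, idx (C.x i) = i := by
    intro i hi
    obtain ⟨h1, h2⟩ := hidx (C.x i) ⟨i, hi, rfl⟩
    exact C.inj _ _ (f.sub _ h1) (f.sub _ hi) h2
  refine ⟨⟨f.D.image C.x, fun y => f.s (idx y), fun y => f.p (idx y), ?_, ?_⟩, ?_⟩
  · intro y hy z hz hs
    obtain ⟨i, hi, rfl⟩ := Finset.mem_image.mp hy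
    obtain ⟨j, hj, rfl⟩ := Finset.mem_image.mp hz
    simp only [hid i hi, hid j hj] at hs ⊢
    cases h1 : f.s i
    · cases h2 : f.s j
      · rw [h1, h2] at hs; exact absurd rfl hs
      · rw [add_comm, dist_comm]
        exact f.feas j hj i hi h2 h1
    · cases h2 : f.s j
      · exact f.feas i hi j hj h1 h2
      · rw [h1, h2] at hs; exact absurd rfl hs
  · intro y hy
    obtain ⟨i, hi, rfl⟩ := Finset.mem_image.mp hy
    obtain ⟨j, hj, hs, hp⟩ := f.tight i hi
    refine ⟨C.x j, Finset.mem_image_of_mem _ hj, ?_, ?_⟩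
    · simp only [hid i hi, hid j hj]; exact hs
    · simp only [hid i hi, hid j hj]; exact hp
  · intro i j hij
    obtain ⟨hi, hj, hs, hp⟩ := hij
    refine ⟨Finset.mem_image_of_mem _ hi, Finset.mem_image_of_mem _ hj, ?_, ?_⟩
    · simp only [hid i hi, hid j hj]; exact hs
    · simp only [hid i hi, hid j hj]; exact hp

end Pool.Agent.Lib.MP_293cc0_an
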