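import Pool.Agent.Lib.MP_293cc0_an.Final
import Pool.Agent.Lib.MP_293cc0_an.F.Main
import Pool.Agent.Lib.MP_293cc0_an.UB.Main

/-!
# MP_293cc0_an: `n - d(n)` is at least a power of `log log n`
-/

set_option autoImplicit false

namespace Pool.Agent.Lib.MP_293cc0_an

open Finset Filter

/-- The double logarithmic lower bound for `n - d(n)`, general form. -/
theorem lower_of_sav_two (k j : ℕ) (hk : 1 ≤ k) (hj : 1 ≤ j)
    (h : ∀ (X : Type) [MetricSpace X] [Fintype X] (p : ℕ), 1 ≤ p →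
      2 ^ (2 ^ (k * p ^ j)) ≤ Fintype.card X → Sav X p) :
    ∀ᶠ n : ℕ in atTop,
      (Real.log (Real.log n)) ^ (1 / (2 * j : ℝ)) ≤ (n : ℝ) - dmin n := by
  have hj0 : (0 : ℝ) < j := by exact_mod_cast hj
  have hk0 : (0 : ℝ) < k := by exact_mod_cast hk
  have hlog : Tendsto (fun n : ℕ => Real.log n) atTop atTop :=
    Real.tendsto_log_atTop.comp tendsto_natCast_atTop_atTop
  have hll : Tendsto (fun n : ℕ => Real.log (Real.log n)) atTop atTop :=
    Real.tendsto_log_atTop.comp hlog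
  have hc : (0 : ℝ) < 1 / (2 * j : ℝ) := by positivity
  have hpow : Tendsto (fun n : ℕ => (Real.log (Real.log n)) ^ (1 / 2 : ℝ)) atTop atTop :=
    (tendsto_rpow_atTop (by norm_num)).comp hll
  filter_upwards [hll.eventually_ge_atTop 1, hpow.eventually_ge_atTop ((k : ℝ) * 2 ^ j),
    eventually_ge_atTop 3, hlog.eventually_ge_atTop 1] with n hn1 hn2 hn3 hn4
  set L : ℝ := Real.log (Real.log n) with hL
  set p : ℕ := ⌊L ^ (1 / (2 * j : ℝ))⌋₊ + 1 with hp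
  have hL0 : (0 : ℝ) ≤ L := by linarith
  have hx1 : 1 ≤ L ^ (1 / (2 * j : ℝ)) := Real.one_le_rpow hn1 hc.le
  have hplow : L ^ (1 / (2 * j : ℝ)) ≤ p := by
    rw [hp]; push_cast
    exact (Nat.lt_floor_add_one _).le
  have hpup : (p : ℝ) ≤ 2 * L ^ (1 / (2 * j : ℝ)) := by
    rw [hp]; push_cast
    have := Nat.floor_le (le_trans zero_le_one hx1)
    linarith
  have hpk : (p : ℝ) ^ j ≤ 2 ^ j * L ^ (1 / 2 : ℝ) := by
    calc (p : ℝ) ^ j ≤ (2 * L ^ (1 / (2 * j : ℝ))) ^ j :=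
          pow_le_pow_left₀ (Nat.cast_nonneg p) hpup j
      _ = 2 ^ j * (L ^ (1 / (2 * j : ℝ))) ^ j := mul_pow _ _ _
      _ = 2 ^ j * L ^ (1 / 2 : ℝ) := by
          congr 1
          rw [← Real.rpow_natCast, ← Real.rpow_mul hL0]
          congr 1
          field_simp
  have hbig : (k : ℝ) * (p : ℝ) ^ j ≤ L := by
    calc (k : ℝ) * (p : ℝ) ^ j ≤ k * (2 ^ j * L ^ (1 / 2 : ℝ)) :=
          mul_le_mul_of_nonneg_left hpk hk0.le
      _ = (k * 2 ^ j) * L ^ (1 / 2 : ℝ) := by ring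
      _ ≤ L ^ (1 / 2 : ℝ) * L ^ (1 / 2 : ℝ) :=
          mul_le_mul_of_nonneg_right hn2 (Real.rpow_nonneg hL0 _)
      _ = L := by
          rw [← Real.rpow_add' hL0 (by norm_num)]
          norm_num
  have hn0 : (0 : ℝ) < n := by
    have : (3 : ℝ) ≤ n := by exact_mod_cast hn3
    linarith
  have hp1 : 1 ≤ p := by omega
  have hlog2 : Real.log 2 ≤ 1 := by
    have := Real.log_two_lt_d9
    linarith
  have hll2 : ((2 : ℝ) ^ (k * p ^ j)) ≤ Real.log n := by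
    have h2 : Real.log ((2 : ℝ) ^ (k * p ^ j)) ≤ Real.log (Real.log n) := by
      rw [Real.log_pow]
      push_cast
      calc (k : ℝ) * (p : ℝ) ^ j * Real.log 2 ≤ (k : ℝ) * (p : ℝ) ^ j * 1 :=
            mul_le_mul_of_nonneg_left hlog2 (by positivity)
        _ ≤ L := by rw [mul_one]; exact hbig
    exact (Real.log_le_log_iff (by positivity) (by linarith)).mp h2
  have hcard : 2 ^ (2 ^ (k * p ^ j)) ≤ n := by
    have h1 : ((2 : ℝ) ^ (2 ^ (k * p ^ j))) ≤ n := by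
      have h2 : Real.log ((2 : ℝ) ^ (2 ^ (k * p ^ j))) ≤ Real.log n := by
        rw [Real.log_pow]
        push_cast
        calc (2 : ℝ) ^ (k * p ^ j) * Real.log 2 ≤ (2 : ℝ) ^ (k * p ^ j) * 1 :=
              mul_le_mul_of_nonneg_left hlog2 (by positivity)
          _ ≤ Real.log n := by rw [mul_one]; exact hll2
      exact (Real.log_le_log_iff (by positivity) hn0).mp h2
    exact_mod_cast h1
  have hpn : p + 1 ≤ n := by
    have h1 : p + 1 ≤ 2 ^ p := by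
      have := Nat.lt_two_pow_self (n := p)
      omega
    have h2 : p ≤ k * p ^ j := by
      calc p = 1 * p ^ 1 := by ring
        _ ≤ k * p ^ j := Nat.mul_le_mul hk (Nat.pow_le_pow_right hp1 hj)
    have h3 : k * p ^ j ≤ 2 ^ (k * p ^ j) := Nat.lt_two_pow_self.le
    calc p + 1 ≤ 2 ^ p := h1
      _ ≤ 2 ^ (2 ^ (k * p ^ j)) := Nat.pow_le_pow_right (by norm_num) (h2.trans h3)
      _ ≤ n := hcard
  have hd := dmin_le_of_sav hpn (fun X _ _ hX => h X p hp1 (by rw [hX]; exact hcard))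
  have hd' : (dmin n : ℝ) + p ≤ n := by exact_mod_cast hd
  linarith

theorem exp_bound (m : ℕ) (hm : 1 ≤ m) :
    (4 ^ (m ^ 2) + 1 + 2) ^ 4 ≤ 2 ^ (16 * m ^ 2) := by
  have hm0 : 1 ≤ m ^ 2 := Nat.one_le_pow _ _ hm
  have h1 : 4 ^ (m ^ 2) + 1 + 2 ≤ 4 ^ (m ^ 2) * 4 := by
    have : 1 ≤ 4 ^ (m ^ 2) := Nat.one_le_pow _ _ (by norm_num)
    omega
  calc (4 ^ (m ^ 2) + 1 + 2) ^ 4 ≤ (4 ^ (m ^ 2) * 4) ^ 4 := Nat.pow_le_pow_left h1 4
    _ = 2 ^ (8 * m ^ 2 + 8) := by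
        have h4 : (4 : ℕ) = 2 ^ 2 := by norm_num
        have h5 : (4 : ℕ) ^ (m ^ 2) * 4 = 2 ^ (2 * m ^ 2 + 2) := by
          rw [pow_add, pow_mul]; norm_num
        rw [h5, ← pow_mul]
        congr 1
        ring
    _ ≤ 2 ^ (16 * m ^ 2) := Nat.pow_le_pow_right (by norm_num) (by omega)

/-- The double logarithmic lower bound for `n - d(n)`. -/
theorem lower_loglog :
    ∀ᶠ n : ℕ in atTop, (Real.log (Real.log n)) ^ (1 / 400 : ℝ) ≤ (n : ℝ) - dmin n := by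
  have h := lower_of_sav_two (2 ^ 212) 200 (Nat.one_le_two_pow) (by norm_num) (by
    intro X _ _ p hp hX
    obtain ⟨m, hm⟩ : ∃ m, m = 2 ^ 104 * p ^ 100 := ⟨_, rfl⟩
    have hm1 : 2 * (4 * (1024 * p ^ 10) ^ 10) + 1 ≤ m := by
      have h1 : 2 * (4 * (1024 * p ^ 10) ^ 10) = 2 ^ 103 * p ^ 100 := by ring
      have h2 : 1 ≤ 2 ^ 103 * p ^ 100 := Nat.mul_pos (by positivity) (by positivity)
      have h3 : 2 ^ 104 * p ^ 100 = 2 ^ 103 * p ^ 100 + 2 ^ 103 * p ^ 100 := by ring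
      rw [h1, hm, h3]
      omega
    have hm2 : 2 ^ 212 * p ^ 200 = 16 * m ^ 2 := by
      rw [hm]; ring
    refine sav_loglog X hp hm1 (le_trans ?_ hX)
    apply Nat.pow_le_pow_right (by norm_num)
    rw [hm2]
    exact exp_bound m (by omega))
  have e : (1 / (2 * (200 : ℕ)) : ℝ) = 1 / 400 := by norm_num
  rw [e] at h
  exact h

end Pool.Agent.Lib.MP_293cc0_an
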