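import Pool.Agent.Lib.MP_293cc0_an.Comb

/-!
# MP_293cc0_an: from savings to `n - d(n)`
-/

set_option autoImplicit false

namespace Pool.Agent.Lib.MP_293cc0_an

open Finset Filter

/-- Savings `p` in every space with `n` points give `d(n) ≤ n - p`. -/
theorem dmin_le_of_sav {n p : ℕ} (hn : p + 1 ≤ n)
    (h : ∀ (X : Type) [MetricSpace X] [Fintype X], Fintype.card X = n → Sav X p) :
    dmin n + p ≤ n := by
  have h1 : dmin n ≤ n - p := by
    apply dmin_le (by omega)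
    intro X _ _ hX
    classical
    obtain ⟨S, K, hS, hK⟩ := h X hX
    have h2 := hK.emb
    have h3 : S.card ≤ Fintype.card X := Finset.card_le_univ S
    have h4 : K + (Fintype.card X - S.card) = n - p := by omega
    rw [h4] at h2
    exact h2
  omega

/-- The lower bound for `n - d(n)`. -/
theorem lower_of_sav (k : ℕ) (hk : 1 ≤ k)
    (h : ∀ (X : Type) [MetricSpace X] [Fintype X] (p : ℕ), 1 ≤ p →
      2 ^ (k * p ^ k) ≤ Fintype.card X → Sav X p) :
    ∀ᶠ n : ℕ in atTop, (Real.log n) ^ (1 / (2 * k : ℝ)) ≤ (n : ℝ) - dmin n := by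
  -- `p = ⌊(log n) ^ (1 / (2 k))⌋ + 1`
  have hk0 : (0 : ℝ) < k := by exact_mod_cast hk
  have hlog : Tendsto (fun n : ℕ => Real.log n) atTop atTop :=
    Real.tendsto_log_atTop.comp tendsto_natCast_atTop_atTop
  -- eventually `2 ^ k * k ≤ (log n) ^ (1/2)`, etc.
  have hc : (0 : ℝ) < 1 / (2 * k : ℝ) := by positivity
  have hpow : Tendsto (fun n : ℕ => (Real.log n) ^ (1 / 2 : ℝ)) atTop atTop :=
    (tendsto_rpow_atTop (by norm_num)).comp hlog
  filter_upwards [hlog.eventually_ge_atTop 1, hpow.eventually_ge_atTop ((k : ℝ) * 2 ^ k),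
    eventually_ge_atTop 3] with n hn1 hn2 hn3
  set L : ℝ := Real.log n with hL
  set p : ℕ := ⌊L ^ (1 / (2 * k : ℝ))⌋₊ + 1 with hp
  have hL0 : (0 : ℝ) ≤ L := by linarith
  have hx1 : 1 ≤ L ^ (1 / (2 * k : ℝ)) := Real.one_le_rpow hn1 hc.le
  have hplow : L ^ (1 / (2 * k : ℝ)) ≤ p := by
    rw [hp]; push_cast
    exact (Nat.lt_floor_add_one _).le
  have hpup : (p : ℝ) ≤ 2 * L ^ (1 / (2 * k : ℝ)) := by
    rw [hp]; push_cast
    have := Nat.floor_le (le_trans zero_le_one hx1)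
    linarith
  have hpk : (p : ℝ) ^ k ≤ 2 ^ k * L ^ (1 / 2 : ℝ) := by
    calc (p : ℝ) ^ k ≤ (2 * L ^ (1 / (2 * k : ℝ))) ^ k :=
          pow_le_pow_left₀ (Nat.cast_nonneg p) hpup k
      _ = 2 ^ k * (L ^ (1 / (2 * k : ℝ))) ^ k := mul_pow _ _ _
      _ = 2 ^ k * L ^ (1 / 2 : ℝ) := by
          congr 1
          rw [← Real.rpow_natCast, ← Real.rpow_mul hL0]
          congr 1
          field_simp
  have hbig : (k : ℝ) * (p : ℝ) ^ k ≤ L := by
    calc (k : ℝ) * (p : ℝ) ^ k ≤ k * (2 ^ k * L ^ (1 / 2 : ℝ)) :=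
          mul_le_mul_of_nonneg_left hpk hk0.le
      _ = (k * 2 ^ k) * L ^ (1 / 2 : ℝ) := by ring
      _ ≤ L ^ (1 / 2 : ℝ) * L ^ (1 / 2 : ℝ) :=
          mul_le_mul_of_nonneg_right hn2 (Real.rpow_nonneg hL0 _)
      _ = L := by
          rw [← Real.rpow_add' hL0 (by norm_num)]
          norm_num
  have hn0 : (0 : ℝ) < n := by
    have : (3 : ℝ) ≤ n := by exact_mod_cast hn3
    linarith
  have hcard : 2 ^ (k * p ^ k) ≤ n := by
    have h1 : ((2 : ℝ) ^ (k * p ^ k)) ≤ n := by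
      have h2 : Real.log ((2 : ℝ) ^ (k * p ^ k)) ≤ Real.log n := by
        rw [Real.log_pow]
        push_cast
        have h3 : Real.log 2 ≤ 1 := by
          have := Real.log_two_lt_d9
          linarith
        calc (k : ℝ) * (p : ℝ) ^ k * Real.log 2 ≤ (k : ℝ) * (p : ℝ) ^ k * 1 :=
              mul_le_mul_of_nonneg_left h3 (by positivity)
          _ ≤ L := by rw [mul_one]; exact hbig
      exact (Real.log_le_log_iff (by positivity) hn0).mp h2
    exact_mod_cast h1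
  have hp1 : 1 ≤ p := by omega
  have hpn : p + 1 ≤ n := by
    have h1 : p + 1 ≤ 2 ^ p := by
      have := Nat.lt_two_pow_self (n := p)
      omega
    have h2 : p ≤ k * p ^ k := by
      calc p = 1 * p ^ 1 := by ring
        _ ≤ k * p ^ k := Nat.mul_le_mul hk (Nat.pow_le_pow_right hp1 hk)
    calc p + 1 ≤ 2 ^ p := h1
      _ ≤ 2 ^ (k * p ^ k) := Nat.pow_le_pow_right (by norm_num) h2
      _ ≤ n := hcard
  have hd := dmin_le_of_sav hpn (fun X _ _ hX => h X p hp1 (by rw [hX]; exact hcard))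
  have hd' : (dmin n : ℝ) + p ≤ n := by exact_mod_cast hd
  linarith

end Pool.Agent.Lib.MP_293cc0_an
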