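import Pool.Agent.Lib.MP_293cc0_an.Comb

/-!
# MP_293cc0_an: the first pass

A metric space with at least `2 ^ (N + 1) ^ 4` points contains a comb of length `N`.
-/

set_option autoImplicit false

namespace Pool.Agent.Lib.MP_293cc0_an

open Finset

/-- End-homogeneous sequences: for every relation `R` on quadruples there are `k` points and a large
set `V` of further points such that `R (x a) (x b) (x c) v` does not depend on `v ∈ V`, and on a later
`x t`. -/
theorem exists_endhom {X : Type} [Fintype X] [DecidableEq X] (R : X → X → X → X → Prop) (x0 : X) :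
    ∀ (k M : ℕ), 2 ^ ((k + 1) ^ 4) * (M + 1) ≤ Fintype.card X →
      ∃ (x : ℕ → X) (V : Finset X) (H : ℕ → ℕ → ℕ → Prop),
        M + 1 ≤ V.card ∧ (∀ i, i < k → x i ∉ V) ∧
        (∀ i j, i < k → j < k → x i = x j → i = j) ∧
        (∀ a b c, a < k → b < k → c < k → ∀ v ∈ V, R (x a) (x b) (x c) v ↔ H a b c) ∧
        (∀ a b c t, a < t → b < t → c < t → t < k → (R (x a) (x b) (x c) (x t) ↔ H a b c)) := by
  classical
  intro k
  induction k with
  | zero =>
    intro M hM
    refine ⟨fun _ => x0, Finset.univ, fun _ _ _ => True, ?_, ?_, ?_, ?_, ?_⟩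
    · rw [Finset.card_univ]
      have : M + 1 ≤ 2 ^ ((0 + 1) ^ 4) * (M + 1) := Nat.le_mul_of_pos_left _ (by positivity)
      exact le_trans this hM
    · intro i hi; omega
    · intro i j hi; omega
    · intro a b c ha; omega
    · intro a b c t _ _ _ ht; omega
  | succ k ih =>
    intro M hM
    -- a large set of candidates for `k` points
    have hpow : 2 ^ ((k + 1) ^ 4) * (2 ^ ((k + 1) ^ 3) * (M + 1) + 1 + 1) ≤ Fintype.card X := by
      refine le_trans ?_ hM
      have h1 : (k + 1) ^ 4 + ((k + 1) ^ 3 + 2) ≤ (k + 1 + 1) ^ 4 := by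
        have : (k + 1 + 1) ^ 4 = (k + 1) ^ 4 + 4 * (k + 1) ^ 3 + 6 * (k + 1) ^ 2 + 4 * (k + 1) + 1 := by
          ring
        have h3 : (k + 1) ^ 3 ≤ 4 * (k + 1) ^ 3 := by omega
        omega
      have h2 : 2 ^ ((k + 1) ^ 3) * (M + 1) + 1 + 1 ≤ 2 ^ ((k + 1) ^ 3 + 2) * (M + 1) := by
        rw [pow_add]
        have h4 : 1 ≤ 2 ^ ((k + 1) ^ 3) * (M + 1) := Nat.succ_le_of_lt (by positivity)
        have h5 : 2 ^ ((k + 1) ^ 3) * 2 ^ 2 * (M + 1) = 4 * (2 ^ ((k + 1) ^ 3) * (M + 1)) := by ring
        omega
      calc 2 ^ ((k + 1) ^ 4) * (2 ^ ((k + 1) ^ 3) * (M + 1) + 1 + 1)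
          ≤ 2 ^ ((k + 1) ^ 4) * (2 ^ ((k + 1) ^ 3 + 2) * (M + 1)) := Nat.mul_le_mul_left _ h2
        _ = 2 ^ ((k + 1) ^ 4 + ((k + 1) ^ 3 + 2)) * (M + 1) := by rw [pow_add]; ring
        _ ≤ 2 ^ ((k + 1 + 1) ^ 4) * (M + 1) :=
          Nat.mul_le_mul_right _ (Nat.pow_le_pow_right (by omega) h1)
    obtain ⟨x, V, H, hV, hxV, hinj, hR, hRt⟩ := ih (2 ^ ((k + 1) ^ 3) * (M + 1) + 1) hpow
    -- choose the next point
    have hne : V.Nonempty := by rw [← Finset.card_pos]; omega
    obtain ⟨y, hy⟩ := hne
    let x' : ℕ → X := fun i => if i < k then x i else y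
    have hx' : ∀ i, i < k → x' i = x i := fun i hi => if_pos hi
    have hx'k : x' k = y := if_neg (lt_irrefl k)
    -- colour the other candidates
    let col : X → (Fin (k + 1) × Fin (k + 1) × Fin (k + 1) → Bool) := fun v q =>
      decide (R (x' q.1) (x' q.2.1) (x' q.2.2) v)
    have hcard : (Finset.univ : Finset (Fin (k + 1) × Fin (k + 1) × Fin (k + 1) → Bool)).card =
        2 ^ ((k + 1) ^ 3) := by
      rw [Finset.card_univ, Fintype.card_fun, Fintype.card_bool, Fintype.card_prod,
        Fintype.card_prod, Fintype.card_fin]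
      congr 1
      ring
    have hpig : ∃ c ∈ (Finset.univ : Finset (Fin (k + 1) × Fin (k + 1) × Fin (k + 1) → Bool)),
        M + 1 ≤ ((V.erase y).filter (fun v => col v = c)).card := by
      apply Finset.exists_le_card_fiber_of_mul_le_card_of_maps_to
      · intro v _
        exact Finset.mem_univ _
      · exact Finset.univ_nonempty
      · rw [hcard, Finset.card_erase_of_mem hy]
        omega
    obtain ⟨c, -, hc⟩ := hpig
    have hV' : ∀ v, v ∈ (V.erase y).filter (fun v => col v = c) → v ∈ V ∧ v ≠ y ∧ col v = c := by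
      intro v hv
      rw [Finset.mem_filter, Finset.mem_erase] at hv
      exact ⟨hv.1.2, hv.1.1, hv.2⟩
    refine ⟨x', (V.erase y).filter (fun v => col v = c),
      fun a b d => ∃ (ha : a < k + 1) (hb : b < k + 1) (hd : d < k + 1),
        c (⟨a, ha⟩, ⟨b, hb⟩, ⟨d, hd⟩) = true, hc, ?_, ?_, ?_, ?_⟩
    · intro i hi hmem
      have h1 := hV' _ hmem
      by_cases hik : i < k
      · rw [hx' i hik] at h1
        exact hxV i hik h1.1
      · have : i = k := by omega
        rw [this, hx'k] at h1
        exact h1.2.1 rfl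
    · intro i j hi hj hij
      by_cases hik : i < k
      · by_cases hjk : j < k
        · rw [hx' i hik, hx' j hjk] at hij
          exact hinj i j hik hjk hij
        · have : j = k := by omega
          rw [hx' i hik, this, hx'k] at hij
          exact absurd hy (hij ▸ hxV i hik)
      · have hi' : i = k := by omega
        by_cases hjk : j < k
        · rw [hi', hx'k, hx' j hjk] at hij
          exact absurd hy (hij.symm ▸ hxV j hjk)
        · omega
    · intro a b d ha hb hd v hv
      have h1 := hV' v hv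
      have h2 : decide (R (x' a) (x' b) (x' d) v) = c (⟨a, ha⟩, ⟨b, hb⟩, ⟨d, hd⟩) := by
        rw [← h1.2.2]
      constructor
      · intro h
        refine ⟨ha, hb, hd, ?_⟩
        rw [← h2]
        exact decide_eq_true h
      · rintro ⟨_, _, _, h⟩
        rw [← h2] at h
        exact of_decide_eq_true h
    · intro a b d t hat hbt hdt ht
      -- an element of the new candidate set
      obtain ⟨v, hv⟩ : ((V.erase y).filter (fun v => col v = c)).Nonempty := by
        rw [← Finset.card_pos]; omega
      have h1 := hV' v hv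
      have ha : a < k := by omega
      have hb : b < k := by omega
      have hd : d < k := by omega
      have h2 : R (x' a) (x' b) (x' d) v ↔ ∃ (ha : a < k + 1) (hb : b < k + 1) (hd : d < k + 1),
        c (⟨a, ha⟩, ⟨b, hb⟩, ⟨d, hd⟩) = true := by
        have h3 : decide (R (x' a) (x' b) (x' d) v) =
            c (⟨a, by omega⟩, ⟨b, by omega⟩, ⟨d, by omega⟩) := by
          rw [← h1.2.2]
        constructor
        · intro h
          refine ⟨by omega, by omega, by omega, ?_⟩
          rw [← h3]
          exact decide_eq_true h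
        · rintro ⟨_, _, _, h⟩
          rw [← h3] at h
          exact of_decide_eq_true h
      refine Iff.trans ?_ h2
      rw [hx' a ha, hx' b hb, hx' d hd, hR a b d ha hb hd v h1.1]
      by_cases htk : t < k
      · rw [hx' t htk]
        exact hRt a b d t hat hbt hdt htk
      · have : t = k := by omega
        rw [this, hx'k]
        exact hR a b d ha hb hd y hy

/-- **First pass**: a large metric space contains a comb of length `N`. -/
theorem exists_comb (X : Type) [MetricSpace X] [Fintype X] (N : ℕ)
    (h : 2 ^ ((N + 2) ^ 4) ≤ Fintype.card X) : Nonempty (Comb X N) := by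
  classical
  have hpos : 0 < Fintype.card X := lt_of_lt_of_le (by positivity) h
  obtain ⟨x0⟩ := Fintype.card_pos_iff.1 hpos
  obtain ⟨x, V, H, -, -, hinj, -, hRt⟩ := exists_endhom
    (fun a b c v => dist a b + dist c v ≤ dist a c + dist b v) x0 (N + 1) 0 (by
      rw [Nat.zero_add, Nat.mul_one]; exact h)
  refine ⟨⟨x, fun i j hi hj => hinj i j (by omega) (by omega),
    fun i j => dist (x i) (x j) - dist (x i) (x N) - dist (x j) (x N), ?_, ?_⟩⟩
  · intro i j
    rw [dist_comm (x i) (x j)]
    ring
  · intro a b c t ha hb hc ht _ _ _ he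
    have h1 := hRt a b c t ha hb hc (by omega)
    have h2 := hRt a b c N (by omega) (by omega) (by omega) (by omega)
    rw [h1, ← h2]
    have h3 : dist (x a) (x b) - dist (x a) (x N) - dist (x b) (x N) ≤
      dist (x a) (x c) - dist (x a) (x N) - dist (x c) (x N) := he
    linarith

end Pool.Agent.Lib.MP_293cc0_an
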